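import Pool.Agent.H8.VR.Cor

/-!
# Spectra over classes of graphs: minors, topological minors, walls
-/

set_option autoImplicit false

namespace Pool.Agent.H8.MC

open Pool.Agent.H8.VR Pool.Agent.H69.VR

/-- `H` is a minor of `G`: there are disjoint sets `B w` of vertices of `G` which induce connected
(nonempty) graphs, with an edge of `G` between `B w` and `B w'` if `w` and `w'` are adjacent in `H`. -/
def Minor {W V : Type} (H : SimpleGraph W) (G : SimpleGraph V) : Prop :=
  ∃ B : W → Set V, (∀ w, (G.induce (B w)).Connected) ∧ (∀ w w', w ≠ w' → Disjoint (B w) (B w')) ∧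
    ∀ w w', H.Adj w w' → ∃ x ∈ B w, ∃ y ∈ B w', G.Adj x y

/-- `H` is a topological minor of `G`: there are different vertices `f w` of `G` and for the pairs
`{w, w'}` disjoint sets `X s(w, w')` which contain none of the vertices `f w`, such that for adjacent
`w`, `w'` the vertices `f w`, `f w'` are adjacent in `G`, or `X s(w, w')` induces a connected graph and
contains a neighbour of `f w` and a neighbour of `f w'` (so there are paths between `f w` and `f w'`,
which have no common inner vertices). -/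
def TopMinor {W V : Type} (H : SimpleGraph W) (G : SimpleGraph V) : Prop :=
  ∃ (f : W → V) (X : Sym2 W → Set V), Function.Injective f ∧ (∀ w e, f w ∉ X e) ∧
    (∀ e e', e ≠ e' → Disjoint (X e) (X e')) ∧ ∀ w w', H.Adj w w' → G.Adj (f w) (f w') ∨
      ((G.induce (X s(w, w'))).Connected ∧ (∃ a ∈ X s(w, w'), G.Adj (f w) a) ∧
        ∃ b ∈ X s(w, w'), G.Adj b (f w'))

/-- The square grid with `r` rows and `r` columns. -/
def grid (r : ℕ) : SimpleGraph (Fin r × Fin r) where
  Adj p q := (p.1 = q.1 ∧ (p.2.val + 1 = q.2.val ∨ q.2.val + 1 = p.2.val)) ∨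
    (p.2 = q.2 ∧ (p.1.val + 1 = q.1.val ∨ q.1.val + 1 = p.1.val))
  symm := ⟨by
    rintro p q (⟨h, h'⟩ | ⟨h, h'⟩)
    · exact Or.inl ⟨h.symm, h'.symm⟩
    · exact Or.inr ⟨h.symm, h'.symm⟩⟩
  loopless := ⟨by rintro p (⟨-, h⟩ | ⟨-, h⟩) <;> omega⟩

/-- The wall with `m` rows of `2 m` bricks' corners: the rows are paths, and the vertex in the row `i`
and the column `j` is adjacent to the next one in this column if `i + j` is even. -/
def wall (m : ℕ) : SimpleGraph (Fin m × Fin (2 * m)) where
  Adj p q := (p.1 = q.1 ∧ (p.2.val + 1 = q.2.val ∨ q.2.val + 1 = p.2.val)) ∨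
    (p.2 = q.2 ∧ ((p.1.val + 1 = q.1.val ∧ Even (p.1.val + p.2.val)) ∨
      (q.1.val + 1 = p.1.val ∧ Even (q.1.val + q.2.val))))
  symm := ⟨by
    rintro p q (⟨h, h'⟩ | ⟨h, h'⟩)
    · exact Or.inl ⟨h.symm, h'.symm⟩
    · exact Or.inr ⟨h.symm, h'.symm⟩⟩
  loopless := ⟨by rintro p (⟨-, h⟩ | ⟨-, h⟩) <;> omega⟩

/-- A class of finite graphs: graphs with vertices `0, …, n - 1`. -/
abbrev GClass : Type := (n : ℕ) → SimpleGraph (Fin n) → Prop

/-- The class is closed under topological minors (every minor-closed class is). -/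
def TopClosed (C : GClass) : Prop :=
  ∀ (m n : ℕ) (H : SimpleGraph (Fin m)) (G : SimpleGraph (Fin n)), C n G → TopMinor H G → C m H

/-- All graphs isomorphic to a wall belong to the class `C`. -/
def HasWalls (C : GClass) : Prop :=
  ∀ (m n : ℕ) (G : SimpleGraph (Fin n)), Nonempty (G ≃g wall m) → C n G

/-- The finite graphs which have none of the graphs in the list `Hs` as a minor and none of the graphs in
the list `Ts` as a topological minor. -/
def Excl (Hs Ts : List (Σ n, SimpleGraph (Fin n))) : GClass :=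
  fun _ G => (∀ H ∈ Hs, ¬ Minor H.2 G) ∧ ∀ T ∈ Ts, ¬ TopMinor T.2 G

/-- The formula `Ψ` has only the binary relation symbol `R 0` (the unary ones are arbitrary). -/
def BinZero : MS → Prop
  | .un _ _ => True
  | .bi i _ _ => i = 0
  | .eq _ _ => True
  | .mem _ _ => True
  | .mod _ _ _ => True
  | .neg φ => BinZero φ
  | .and φ ψ => BinZero φ ∧ BinZero ψ
  | .ex _ φ => BinZero φ
  | .exS _ φ => BinZero φ

/-- The class is defined by a formula of counting monadic second-order logic (in the language of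
coloured graphs). -/
def Definable (C : GClass) : Prop :=
  ∃ χ : MS, BinZero χ ∧ ∀ (n : ℕ) (P : ℕ → Fin n → Prop) (R : ℕ → Fin n → Fin n → Prop)
    (G : SimpleGraph (Fin n)), 0 < n → (∀ a b, R 0 a b ↔ G.Adj a b) →
      ((∀ (e : ℕ → Fin n) (V : ℕ → Set (Fin n)), χ.Sat P R e V) ↔ C n G)

/-- The sizes of the finite models of `Ψ` and `φ` in which `R 0` is the adjacency relation of a graph in
the class `C`; the other relations are arbitrary. -/
def specC (C : GClass) (Ψ : MS) (φ : C2) : Set ℕ :=
  {n | 0 < n ∧ ∃ (P : ℕ → Fin n → Prop) (R : ℕ → Fin n → Fin n → Prop) (G : SimpleGraph (Fin n)),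
    C n G ∧ (∀ a b, R 0 a b ↔ G.Adj a b) ∧
      (∀ (e : ℕ → Fin n) (V : ℕ → Set (Fin n)), Ψ.Sat P R e V) ∧
        ∀ v : Bool → Fin n, φ.Sat P R v}

/-- The excluded grid theorem, with NLC-width instead of tree-width. -/
def T_GRID : Prop := ∀ r : ℕ, ∃ k : ℕ, ∀ (V : Type) [Finite V] [Nonempty V] (G : SimpleGraph V),
  ¬ Minor (grid r) G → ∃ c, NLC k 1 (fun _ => G.Adj) Set.univ c

end Pool.Agent.H8.MC
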