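import Pool.Agent.H8.MC.Defs
import Pool.Agent.H8.PL.Targets
import Pool.Agent.H8.JS.Defs
import Pool.Agent.H51.UN.Complete

/-!
# Spectra over classes of graphs which are closed under subgraphs: targets
-/

set_option autoImplicit false

namespace Pool.Agent.H8.MC

open Pool.Agent.H69.Sp Pool.Agent.H69.Mt Pool.Agent.H8.VR Pool.Agent.H69.VR Pool.Agent.H8.JS
open Pool.Agent.H8.PL (GridF Z_GR Z_SQ)

/-! ### Classes of graphs -/

/-- The class is closed under subgraphs (and isomorphic copies). -/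
def SubClosed (C : GClass) : Prop :=
  ∀ (m n : ℕ) (H : SimpleGraph (Fin m)) (G : SimpleGraph (Fin n)), C n G →
    (∃ f : Fin m → Fin n, Function.Injective f ∧ ∀ a b, H.Adj a b → G.Adj (f a) (f b)) → C m H

/-- Every square grid is a minor of a graph in the class. -/
def GridMinors (C : GClass) : Prop :=
  ∀ r : ℕ, ∃ (n : ℕ) (G : SimpleGraph (Fin n)), C n G ∧ Minor (grid r) G

/-- `π` is a model of the grid with `m` rows and columns in `G`; there are no further edges than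
the edges inside the branch sets and between neighbouring branch sets. -/
structure GMod {V : Type} (m : ℕ) (G : SimpleGraph V) (π : V → Option (Fin m × Fin m)) : Prop where
  conn : ∀ p, (G.induce {v | π v = some p}).Connected
  adj : ∀ u v, G.Adj u v → ∃ p q, π u = some p ∧ π v = some q ∧ (p = q ∨ (grid m).Adj p q)
  one : ∀ p q, (grid m).Adj p q → ∃ u v, π u = some p ∧ π v = some q ∧ G.Adj u v

/-! ### Models of grids with branch sets of bounded size -/

/-- branch sets of bounded size -/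
def T_BND : Prop := ∀ C : GClass, Definable C → SubClosed C → GridMinors C →
  ∃ L, 0 < L ∧ ∀ r, ∃ (n : ℕ) (G : SimpleGraph (Fin n)) (π : Fin n → Option (Fin r × Fin r)),
    C n G ∧ GMod r G π ∧ (∀ v, π v ≠ none) ∧ ∀ p, {v | π v = some p}.ncard ≤ L

/-- models of grids in graphs of a given size -/
def T_EXA : Prop := ∀ C : GClass, SubClosed C → ∀ L, 0 < L →
  (∀ r, ∃ (n : ℕ) (G : SimpleGraph (Fin n)) (π : Fin n → Option (Fin r × Fin r)),
    C n G ∧ GMod r G π ∧ (∀ v, π v ≠ none) ∧ ∀ p, {v | π v = some p}.ncard ≤ L) →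
  ∀ m, 0 < m → ∃ (G : SimpleGraph (Fin (L * m ^ 2)))
    (π : Fin (L * m ^ 2) → Option (Fin m × Fin m)), C (L * m ^ 2) G ∧ GMod m G π

/-! ### Definability in monadic second-order logic -/

/-- connected sets -/
def T_CON : Prop := ∀ (V : Type) (G : SimpleGraph V) (S : Set V), (G.induce S).Connected ↔
  S.Nonempty ∧ ∀ Y : Set V, (∃ a ∈ Y, a ∈ S) →
    (∀ a b, a ∈ Y → a ∈ S → b ∈ S → G.Adj a b → b ∈ Y) → ∀ a ∈ S, a ∈ Y

/-- the property `p` of elements and sets is defined by a formula with the only binary symbol `R 0` -/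
def MD (p : (A : Type) → (ℕ → A → Prop) → (A → A → Prop) → (ℕ → A) → (ℕ → Set A) → Prop) : Prop :=
  ∃ φ : MS, BinZero φ ∧ ∀ (A : Type) (P : ℕ → A → Prop) (R : ℕ → A → A → Prop) (e : ℕ → A)
    (V : ℕ → Set A), φ.Sat P R e V ↔ p A P (R 0) e V

/-- closure of the definable properties under the operations of logic -/
def T_MSC : Prop :=
  (∀ i x, MD fun _ P _ e _ => P i (e x)) ∧ (∀ x y, MD fun _ _ E e _ => E (e x) (e y)) ∧
  (∀ x y, MD fun _ _ _ e _ => e x = e y) ∧ (∀ x X, MD fun _ _ _ e V => e x ∈ V X) ∧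
  (∀ q : Prop, MD fun _ _ _ _ _ => q) ∧
  (∀ p, MD p → MD fun A P E e V => ¬ p A P E e V) ∧
  (∀ p q, MD p → MD q → MD fun A P E e V => p A P E e V ∧ q A P E e V) ∧
  (∀ p q, MD p → MD q → MD fun A P E e V => p A P E e V ∨ q A P E e V) ∧
  (∀ p q, MD p → MD q → MD fun A P E e V => p A P E e V → q A P E e V) ∧
  (∀ x p, MD p → MD fun A P E e V => ∃ a, p A P E (Function.update e x a) V) ∧
  (∀ x p, MD p → MD fun A P E e V => ∀ a, p A P E (Function.update e x a) V) ∧
  (∀ X p, MD p → MD fun A P E e V => ∃ S, p A P E e (Function.update V X S)) ∧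
  (∀ X p, MD p → MD fun A P E e V => ∀ S, p A P E e (Function.update V X S)) ∧
  (∀ (ι : Type) [Finite ι] (p : ι → (A : Type) → (ℕ → A → Prop) → (A → A → Prop) → (ℕ → A) →
    (ℕ → Set A) → Prop), (∀ i, MD (p i)) → MD fun A P E e V => ∀ i, p i A P E e V) ∧
  (∀ (ι : Type) [Finite ι] (p : ι → (A : Type) → (ℕ → A → Prop) → (A → A → Prop) → (ℕ → A) →
    (ℕ → Set A) → Prop), (∀ i, MD (p i)) → MD fun A P E e V => ∃ i, p i A P E e V) ∧
  (∀ (h : ℕ) p, MD p → MD fun A P E e V => ∃ f : Fin h → A,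
    p A P E (fun j => if hj : j < h then f ⟨j, hj⟩ else e j) V) ∧
  ∀ (h : ℕ) p, MD p → MD fun A P E e V => ∃ f : Fin h → Set A,
    p A P E e (fun j => if hj : j < h then f ⟨j, hj⟩ else V j)

/-! ### Closure under complement -/

/-- empty relations do not matter -/
def T_NLM : Prop := ∀ (k m : ℕ) (V : Type) (R : ℕ → V → V → Prop) (X : Set V) (c : V → Fin k),
  NLC k 1 (fun _ => R 0) X c → (∀ i a b, 1 ≤ i → i < m → ¬ R i a b) → NLC k m R X c

/-- the closure theorem of `ContextFreeClasses` -/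
def T_SWM : Prop := ∀ (k m : ℕ) (Ψ : MS) (φ : C2), Ψ.Below m →
  IsSpectrum (specWM k m Ψ φ) ∧ IsSpectrum (posCompl (specWM k m Ψ φ))

/-- definable classes of bounded NLC-width -/
def T_CLO : Prop := ∀ (C : GClass) (k : ℕ), Definable C →
  (∀ n (G : SimpleGraph (Fin n)), 0 < n → C n G → ∃ c, NLC k 1 (fun _ => G.Adj) Set.univ c) →
  ∀ (Ψ : MS) (φ : C2), BinZero Ψ →
    IsSpectrum (specC C Ψ φ) ∧ IsSpectrum (posCompl (specC C Ψ φ))

/-! ### Coloured models of grids -/

/-- Labels: first column, last column, first row, last row. -/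
structure Lc : Type where
  l : Bool
  r : Bool
  b : Bool
  t : Bool
deriving DecidableEq

section

variable {V : Type}

/-- `v` is in the component of `u`, for the edges between vertices of the same colour -/
def Cm (G : SimpleGraph V) (co : V → Option (ZMod 3 × ZMod 3)) (u v : V) : Prop :=
  Relation.ReflTransGen (fun a b => G.Adj a b ∧ co a = co b) u v

/-- there is an edge from the component of `u` to the component of `v` with the difference `d` of the
colours -/
def Sc (G : SimpleGraph V) (co : V → Option (ZMod 3 × ZMod 3)) (d : ZMod 3 × ZMod 3) (u v : V) :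
    Prop :=
  ∃ a b p, Cm G co u a ∧ Cm G co v b ∧ G.Adj a b ∧ co a = some p ∧ co b = some (p + d)

/-- the step to the next column, for the representatives `rp` of the components -/
def Ec (G : SimpleGraph V) (co : V → Option (ZMod 3 × ZMod 3)) (rp : V → Prop) (x y : V) : Prop :=
  rp x ∧ rp y ∧ Sc G co (1, 0) x y

/-- the step to the next row, for the representatives `rp` of the components -/
def Nc (G : SimpleGraph V) (co : V → Option (ZMod 3 × ZMod 3)) (rp : V → Prop) (x y : V) : Prop :=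
  rp x ∧ rp y ∧ Sc G co (0, 1) x y

/-- The rules for a labelled and tiled model of a grid. -/
structure CRule {Q : Type} (U : Bool → Bool → Bool → Bool → Q → Prop) (Hh Vv : Q → Q → Prop)
    (G : SimpleGraph V) (co : V → Option (ZMod 3 × ZMod 3)) (rp : V → Prop) (lb : V → Lc)
    (ti : V → Q) : Prop where
  eE : ∀ x y, Ec G co rp x y → (lb x).r = false ∧ (lb y).l = false ∧ (lb x).b = (lb y).b ∧
    (lb x).t = (lb y).t
  eN : ∀ x y, Nc G co rp x y → (lb x).t = false ∧ (lb y).b = false ∧ (lb x).l = (lb y).l ∧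
    (lb x).r = (lb y).r
  fE : ∀ x y y', Ec G co rp x y → Ec G co rp x y' → y = y'
  iE : ∀ x x' y, Ec G co rp x y → Ec G co rp x' y → x = x'
  fN : ∀ x y y', Nc G co rp x y → Nc G co rp x y' → y = y'
  iN : ∀ x x' y, Nc G co rp x y → Nc G co rp x' y → x = x'
  xE : ∀ x, rp x → (lb x).r = false → ∃ y, Ec G co rp x y
  xN : ∀ x, rp x → (lb x).t = false → ∃ y, Nc G co rp x y
  cor : ∃ x, rp x ∧ (lb x).l = true ∧ (lb x).b = true
  sq : ∀ x y z, Ec G co rp x y → Nc G co rp x z → ∃ w, Ec G co rp z w ∧ Nc G co rp y w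
  con : ∀ Y : Set V, (∃ x ∈ Y, rp x) → (∀ x y, Ec G co rp x y ∨ Nc G co rp x y → (x ∈ Y ↔ y ∈ Y)) →
    ∀ x, rp x → x ∈ Y
  un : ∀ x, rp x → U (lb x).l (lb x).r (lb x).b (lb x).t (ti x)
  hh : ∀ x y, Ec G co rp x y → Hh (ti x) (ti y)
  vv : ∀ x y, Nc G co rp x y → Vv (ti x) (ti y)

end

/-- the rules are definable; the relation `P 0` gives the representatives -/
def T_GRD : Prop := ∀ (Q : Type) [Finite Q] (U : Bool → Bool → Bool → Bool → Q → Prop)
  (Hh Vv : Q → Q → Prop), ∃ Ψ : MS, BinZero Ψ ∧ ∀ n (G : SimpleGraph (Fin n))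
    (R : ℕ → Fin n → Fin n → Prop) (rp : Fin n → Prop), 0 < n → (∀ a b, R 0 a b ↔ G.Adj a b) →
    ((∃ P : ℕ → Fin n → Prop, (∀ a, P 0 a ↔ rp a) ∧ ∀ e V, Ψ.Sat P R e V) ↔
      ∃ co lb ti, CRule U Hh Vv G co rp lb ti)

/-- the number of the representatives -/
def T_CNT : Prop := ∀ L : ℕ, ∃ φ : C2, ∀ n (P : ℕ → Fin n → Prop) (R : ℕ → Fin n → Fin n → Prop),
  0 < n → ((∃ R' : Fin n → Fin n → Prop, ∀ v, φ.Sat P (Function.update R 1 R') v) ↔
    n = L * Nat.card {x // P 0 x})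

/-- from the rules to a tiling -/
def T_WMO : Prop := ∀ (Q : Type) (U : Bool → Bool → Bool → Bool → Q → Prop) (Hh Vv : Q → Q → Prop)
  (V : Type) [Finite V] (G : SimpleGraph V) (co : V → Option (ZMod 3 × ZMod 3)) (rp : V → Prop)
  (lb : V → Lc) (ti : V → Q), CRule U Hh Vv G co rp lb ti →
    ∃ W H, 0 < W ∧ 0 < H ∧ Nat.card {x // rp x} = W * H ∧ ∃ t, GridF U Hh Vv W H t

/-- from a tiling of a square to the rules -/
def T_WTI : Prop := ∀ (Q : Type) (U : Bool → Bool → Bool → Bool → Q → Prop) (Hh Vv : Q → Q → Prop)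
  (K : ℕ) (V : Type) (G : SimpleGraph V) (π : V → Option (Fin K × Fin K)), 0 < K → GMod K G π →
    (∃ t, GridF U Hh Vv K K t) →
      ∃ co rp lb ti, CRule U Hh Vv G co rp lb ti ∧ Nat.card {x // rp x} = K ^ 2

/-- every spectrum is given by a spectrum over each class with models of grids of bounded density -/
def T_XS : Prop := ∀ S, IsSpectrum S → ∃ (Ψ : MS) (r : ℕ), BinZero Ψ ∧ 0 < r ∧ ∀ L, 0 < L →
  ∃ φ : C2, ∀ C : GClass, (∀ m, 0 < m → ∃ (G : SimpleGraph (Fin (L * m ^ 2)))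
    (π : Fin (L * m ^ 2) → Option (Fin m × Fin m)), C (L * m ^ 2) G ∧ GMod m G π) →
      ∀ n, (n ∈ specC C Ψ φ ↔ ∃ m ∈ S, n = L * m ^ (2 * r))

/-- images under powers -/
def T_IMG : Prop := ∀ S, IsSpectrum S → ∀ L s : ℕ, 0 < L → 0 < s →
  IsSpectrum {n | ∃ m ∈ S, n = L * m ^ s}

/-! ### The theorem -/

/-- the positive half -/
def T_POS : Prop := ∀ C : GClass, Definable C → ¬ GridMinors C → ∀ (Ψ : MS) (φ : C2), BinZero Ψ →
  IsSpectrum (specC C Ψ φ) ∧ IsSpectrum (posCompl (specC C Ψ φ))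

/-- the negative half -/
def T_NEG : Prop := ∀ C : GClass, Definable C → SubClosed C → GridMinors C →
  ∃ (Ψ : MS) (φ : C2), BinZero Ψ ∧ Pool.Agent.H51.UN.Complete (specC C Ψ φ)

/-! ### Examples -/

/-- The finite graphs which have none of the graphs in the list `Hs` as a minor and none of the graphs in
the list `Fs` as a subgraph. -/
def Exc (Hs Fs : List (Σ n, SimpleGraph (Fin n))) : GClass :=
  fun n G => (∀ H ∈ Hs, ¬ Minor H.2 G) ∧ ∀ F ∈ Fs, ¬ ∃ f : Fin F.1 → Fin n,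
    Function.Injective f ∧ ∀ a b, F.2.Adj a b → G.Adj (f a) (f b)

/-- having the minor `H` is definable -/
def T_MFM : Prop := ∀ (h : ℕ) (H : SimpleGraph (Fin h)), ∃ χ : MS, BinZero χ ∧
  ∀ (A : Type) (P : ℕ → A → Prop) (R : ℕ → A → A → Prop) (G : SimpleGraph A),
    (∀ a b, R 0 a b ↔ G.Adj a b) → ∀ (e : ℕ → A) (V : ℕ → Set A), χ.Sat P R e V ↔ Minor H G

/-- having the subgraph `F` is definable -/
def T_MFS : Prop := ∀ (h : ℕ) (F : SimpleGraph (Fin h)), ∃ χ : MS, BinZero χ ∧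
  ∀ (A : Type) (P : ℕ → A → Prop) (R : ℕ → A → A → Prop) (G : SimpleGraph A),
    (∀ a b, R 0 a b ↔ G.Adj a b) → ∀ (e : ℕ → A) (V : ℕ → Set A), χ.Sat P R e V ↔
      ∃ f : Fin h → A, Function.Injective f ∧ ∀ a b, F.Adj a b → G.Adj (f a) (f b)

/-- excluded minors and excluded subgraphs -/
def T_EXC : Prop := ∀ Hs Fs : List (Σ n, SimpleGraph (Fin n)),
  Definable (Exc Hs Fs) ∧ SubClosed (Exc Hs Fs)

end Pool.Agent.H8.MC
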