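import Pool.Agent.H8.MC.FTargets

/-!
# Spectra over classes of graphs closed under subgraphs, with first-order logic and colours only
-/

set_option autoImplicit false

namespace Pool.Agent.H8.MC

open Pool.Agent.H69.Sp Pool.Agent.H69.Mt Pool.Agent.H8.VR Pool.Agent.H69.VR Pool.Agent.H8.JS
open Pool.Agent.H8.PL (GridF Z_GR Z_SQ)

/-- The sizes of the finite models of `Ψ` which consist of a graph in the class `C` (the relations `R i`
are its adjacency relation) and unary relations `P i`. -/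
def specF (C : GClass) (Ψ : MS) : Set ℕ :=
  {n | 0 < n ∧ ∃ (P : ℕ → Fin n → Prop) (G : SimpleGraph (Fin n)), C n G ∧
    ∀ (e : ℕ → Fin n) (V : ℕ → Set (Fin n)), Ψ.Sat P (fun _ => G.Adj) e V}

/-- models of grids in which all branch sets have exactly `s` elements, without further vertices -/
def ExM (C : GClass) (s : ℕ) : Prop := ∀ m, 0 < m → ∃ (G : SimpleGraph (Fin (s * m ^ 2)))
  (π : Fin (s * m ^ 2) → Fin m × Fin m), C (s * m ^ 2) G ∧ GMod m G (fun v => some (π v)) ∧
    ∀ p, {v | π v = p}.ncard = s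

/-- connected sets grow -/
def T_GRW : Prop := ∀ (V : Type) [Finite V] (G : SimpleGraph V) (A X : Set V) (s : ℕ), A ⊆ X →
  (G.induce A).Connected → (G.induce X).Connected → A.ncard ≤ s → s ≤ X.ncard →
    ∃ Y, A ⊆ Y ∧ Y ⊆ X ∧ (G.induce Y).Connected ∧ Y.ncard = s

/-- from branch sets of bounded size to branch sets of one size -/
def T_EXQ : Prop := ∀ C : GClass, SubClosed C → ∀ L, 0 < L →
  (∀ r, ∃ (n : ℕ) (G : SimpleGraph (Fin n)) (π : Fin n → Option (Fin r × Fin r)),
    C n G ∧ GMod r G π ∧ (∀ v, π v ≠ none) ∧ ∀ p, {v | π v = some p}.ncard ≤ L) →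
  ∃ s, 0 < s ∧ ExM C s

/-- grids are models of grids -/
def T_GRY : Prop := ∀ C : GClass, HasGrids C → ExM C 1

/-- The rules for a labelled and tiled model of a grid in which all branch sets have exactly `s`
elements, one of them the representative, without further vertices. -/
structure ERule {V Q : Type} (s : ℕ) (U : Bool → Bool → Bool → Bool → Q → Prop)
    (Hh Vv : Q → Q → Prop) (G : SimpleGraph V) (co : V → Option (ZMod 3 × ZMod 3)) (rp : V → Prop)
    (lb : V → Lc) (ti : V → Q) : Prop where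
  fr : FRule s U Hh Vv G co rp lb ti
  ex : ∀ v, ∃ x, rp x ∧ CmB G co s x v
  u1 : ∀ x y, rp x → rp y → CmB G co s x y → x = y
  sz : ∀ x, rp x → {v | CmB G co s x v}.ncard = s

/-- the rules are definable in first-order logic -/
def T_ERD : Prop := ∀ (s : ℕ) (Q : Type) [Finite Q] (U : Bool → Bool → Bool → Bool → Q → Prop)
  (Hh Vv : Q → Q → Prop), ∃ Ψ : MS, (BinZero Ψ ∧ FirstOrder Ψ) ∧ ∀ n (G : SimpleGraph (Fin n)),
    0 < n → ((∃ P : ℕ → Fin n → Prop, ∀ e V, Ψ.Sat P (fun _ => G.Adj) e V) ↔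
      ∃ co rp lb ti, ERule s U Hh Vv G co rp lb ti)

/-- the number of the vertices -/
def T_NUM : Prop := ∀ (s : ℕ) (Q : Type) (U : Bool → Bool → Bool → Bool → Q → Prop)
  (Hh Vv : Q → Q → Prop) (V : Type) [Finite V] (G : SimpleGraph V)
  (co : V → Option (ZMod 3 × ZMod 3)) (rp : V → Prop) (lb : V → Lc) (ti : V → Q),
  ERule s U Hh Vv G co rp lb ti → Nat.card V = s * Nat.card {x // rp x}

/-- from a tiling of a square to the rules; the components are the branch sets -/
def T_WTX : Prop := ∀ (Q : Type) (U : Bool → Bool → Bool → Bool → Q → Prop) (Hh Vv : Q → Q → Prop)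
  (K : ℕ) (V : Type) (G : SimpleGraph V) (π : V → Fin K × Fin K), 0 < K →
  GMod K G (fun v => some (π v)) → (∃ t, GridF U Hh Vv K K t) →
    ∃ co rp lb ti, CRule U Hh Vv G co rp lb ti ∧ (∀ u v, Cm G co u v ↔ π u = π v) ∧
      ∀ p, ∃! x, rp x ∧ π x = p

/-- every spectrum is given by a first-order spectrum over each class with exact grid models -/
def T_XSE : Prop := ∀ S, IsSpectrum S → ∃ r : ℕ, 0 < r ∧ ∀ s, 0 < s → ∃ Ψ : MS,
  (BinZero Ψ ∧ FirstOrder Ψ) ∧ ∀ C : GClass, ExM C s →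
    ∀ n, (n ∈ specF C Ψ ↔ ∃ m ∈ S, n = s * m ^ (2 * r))

end Pool.Agent.H8.MC
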