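import Pool.Agent.H8.MC.Fin
import Pool.Agent.H8.JS.All
import Pool.Agent.H8.VR.All
import Pool.Agent.H10.GM.All
import Pool.Agent.H33.MC.CLO
import Pool.Agent.H35.MC.WTI
import Pool.Agent.H37.MC.WMO
import Pool.Agent.H46.MC.EXA
import Pool.Agent.H49.MC.MFS
import Pool.Agent.H51.BN.BND
import Pool.Agent.H54.MC.CONN
import Pool.Agent.H64.MC.IMG
import Pool.Agent.H65.MC.GRD
import Pool.Agent.H65.MC.NLM
import Pool.Agent.H91.MC.EXC
import Pool.Agent.H91.MC.MFM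
import Pool.Agent.H94.MC.XS
import Pool.Agent.H95.MC.CNT
import Pool.Agent.H95.MC.MSC

/-!
# Spectra over classes of graphs which are closed under subgraphs: everything
-/

set_option autoImplicit false

namespace Pool.Agent.H8.MC

open Pool.Agent Pool.Agent.H69.Sp Pool.Agent.H8.VR Pool.Agent.H69.VR Pool.Agent.H8.JS
open Pool.Agent.H8.PL (Z_GR Z_SQ z_sq)

theorem t_swm : T_SWM := Pool.Agent.H8.VR.t_all.2.1
theorem t_msc : T_MSC := H95.MC.pf_MSC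
theorem t_con : T_CON := H54.MC.pf_con
theorem t_nlm : T_NLM := H65.MC.pf_NLM
theorem t_clo : T_CLO := H33.MC.pf_clo t_swm t_nlm
theorem t_grd : T_GRD := H65.MC.pf_GRD t_msc
theorem t_cnt : T_CNT := H95.MC.pf_CNT
theorem t_wmo : T_WMO := H37.MC.pf_wmo H39.PL.pf_gr
theorem t_img : T_IMG := H64.MC.pf_img
theorem t_exa : T_EXA := H46.MC.pf_EXA
theorem t_bnd : T_BND := H51.BN.pf_BND
theorem t_mfm : T_MFM := H91.MC.pf_mfm t_msc t_con
theorem t_mfs : T_MFS := H49.MC.pf_mfs t_msc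
theorem t_exc : T_EXC := H91.MC.pf_exc t_mfm t_mfs
theorem t_grid : T_GRID := H10.GM.t_grid
theorem t_pos : T_POS := pf_pos t_grid t_clo
theorem t_wti : T_WTI := H35.MC.pf_WTI
theorem t_xs : T_XS := H94.MC.pf_XS z_sq t_grd t_cnt t_wmo t_wti

theorem v_7 :
    (∀ C : GClass, Definable C →
      (∃ r, ∀ (n : ℕ) (G : SimpleGraph (Fin n)), C n G → ¬ Minor (grid r) G) →
      ∀ (Ψ : MS) (φ : C2), BinZero Ψ →
        (IsSpectrum (specC C Ψ φ) ∧ IsSpectrum (posCompl (specC C Ψ φ))) ∧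
          lang (specC C Ψ φ) ∈ NE ∧ lang (specC C Ψ φ) ∈ coNE) ∧
    (∃ (Ψ : MS) (φ : ℕ → C2), BinZero Ψ ∧ ∀ C : GClass, Definable C → SubClosed C →
      (∀ r, ∃ (n : ℕ) (G : SimpleGraph (Fin n)), C n G ∧ Minor (grid r) G) →
      ∃ L, NEComplete (specC C Ψ (φ L)) ∧ (lang (specC C Ψ (φ L)) ∈ coNE ↔ NE = coNE)) ∧
    ∀ Hs Fs : List (Σ n, SimpleGraph (Fin n)), Definable (Exc Hs Fs) ∧ SubClosed (Exc Hs Fs) := by
  refine ⟨fun C hD hG Ψ φ hΨ => ?_, ?_, t_exc⟩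
  · have h := t_pos C hD (fun h => ?_) Ψ φ hΨ
    · exact ⟨h, j_jb _ h.1, (j_jc _).mpr h.2⟩
    · obtain ⟨r, hr⟩ := hG
      obtain ⟨n, G, h1, h2⟩ := h r
      exact hr n G h1 h2
  · obtain ⟨Ψ, φ, hΨ, h⟩ := pf_neg t_bnd t_exa t_xs t_img
    refine ⟨Ψ, φ, hΨ, fun C hD hS hG => ?_⟩
    obtain ⟨L, hL⟩ := h C hD hS hG
    exact ⟨L, ne_of _ hL⟩

end Pool.Agent.H8.MC
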