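import Pool.Agent.H8.MC.Targets

/-!
# Models of grids with branch sets of bounded size: targets
-/

set_option autoImplicit false

namespace Pool.Agent.H8.MC

open Pool.Agent.H8.VR Pool.Agent.H69.VR

/-- `q` is the neighbour of `p` in the grid in the direction `j` -/
def dirn {r : ℕ} (j : Fin 4) (p q : Fin r × Fin r) : Prop :=
  (j = 0 ∧ p.2 = q.2 ∧ p.1.val + 1 = q.1.val) ∨ (j = 1 ∧ p.2 = q.2 ∧ q.1.val + 1 = p.1.val) ∨
    (j = 2 ∧ p.1 = q.1 ∧ p.2.val + 1 = q.2.val) ∨ (j = 3 ∧ p.1 = q.1 ∧ q.2.val + 1 = p.2.val)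

/-- `π` is a model of the grid in `G`: every vertex is in a branch set, and there is exactly one edge
between neighbouring branch sets. -/
structure XMod {V : Type} (r : ℕ) (G : SimpleGraph V) (π : V → Fin r × Fin r) : Prop where
  conn : ∀ p, (G.induce {v | π v = p}).Connected
  adj : ∀ u v, G.Adj u v → π u = π v ∨ (grid r).Adj (π u) (π v)
  one : ∀ p q, (grid r).Adj p q → ∃ u v, π u = p ∧ π v = q ∧ G.Adj u v
  uniq : ∀ u v u' v', G.Adj u v → G.Adj u' v' → π u = π u' → π v = π v' → π u ≠ π v →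
    u = u' ∧ v = v'

/-- Two graphs side by side, with the edges between vertices which have a port in common. -/
def glue {X Y : Type} (K : SimpleGraph X) (p : X → Fin 4 → Prop) (H : SimpleGraph Y)
    (q : Y → Fin 4 → Prop) : SimpleGraph (X ⊕ Y) where
  Adj
    | .inl a, .inl b => K.Adj a b
    | .inl a, .inr b => ∃ j, p a j ∧ q b j
    | .inr a, .inl b => ∃ j, p b j ∧ q a j
    | .inr a, .inr b => H.Adj a b
  symm := ⟨by
    rintro (a | a) (b | b) h
    · exact K.symm.symm _ _ h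
    · exact h
    · exact h
    · exact H.symm.symm _ _ h⟩
  loopless := ⟨by
    rintro (a | a) h
    · exact K.loopless.irrefl _ h
    · exact H.loopless.irrefl _ h⟩

/-- types are invariant under bijections -/
def T_TIS : Prop := ∀ (A B Q : Type) (h : A → B) (X : Set A) (P : ℕ → A → Prop)
  (P' : ℕ → B → Prop) (R : ℕ → A → A → Prop) (R' : ℕ → B → B → Prop) (c : A → Q) (c' : B → Q),
  Set.InjOn h X → (∀ i, ∀ a ∈ X, (P i a ↔ P' i (h a))) →
  (∀ i, ∀ a ∈ X, ∀ b ∈ X, (R i a b ↔ R' i (h a) (h b))) → (∀ a ∈ X, c a = c' (h a)) →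
  ∀ (φ : MS) (e : ℕ → Option A) (e' : ℕ → Option B) (V : ℕ → Set A) (V' : ℕ → Set B),
    (∀ x, ∀ a ∈ X, (e x = some a ↔ e' x = some (h a))) → (∀ Z, ∀ a ∈ X, (a ∈ V Z ↔ h a ∈ V' Z)) →
      φ.ty P R X c e V = φ.ty P' R' (h '' X) c' e' V'

/-- replacement of a part by a part of the same type -/
def T_RPL : Prop := ∀ C : GClass, Definable C → ∃ (T : Type) (_ : Finite T)
  (tp : (l : ℕ) → SimpleGraph (Fin l) → (Fin l → Fin 4 → Prop) → T),
  ∀ (X : Type) [Finite X] (K : SimpleGraph X) (p : X → Fin 4 → Prop) (l l' : ℕ)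
    (H : SimpleGraph (Fin l)) (H' : SimpleGraph (Fin l')) (q : Fin l → Fin 4 → Prop)
    (q' : Fin l' → Fin 4 → Prop) (n n' : ℕ) (G : SimpleGraph (Fin n)) (G' : SimpleGraph (Fin n')),
    0 < l → 0 < l' → tp l H q = tp l' H' q' → Nonempty (G ≃g glue K p H q) →
      Nonempty (G' ≃g glue K p H' q') → C n G → C n' G'

/-- clean models of grids -/
def T_CLN : Prop := ∀ C : GClass, SubClosed C → GridMinors C → ∀ r, ∃ (n : ℕ)
  (G : SimpleGraph (Fin n)) (π : Fin n → Fin r × Fin r), C n G ∧ XMod r G π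

/-- a branch set may be replaced by a connected graph with the same ports -/
def T_RPM : Prop := ∀ (r n : ℕ) (G : SimpleGraph (Fin n)) (π : Fin n → Fin r × Fin r)
  (p₀ : Fin r × Fin r), XMod r G π →
  ∃ (X : Type) (_ : Finite X) (K : SimpleGraph X) (p : X → Fin 4 → Prop) (l : ℕ)
    (H : SimpleGraph (Fin l)) (q : Fin l → Fin 4 → Prop), 0 < l ∧ H.Connected ∧
    (∀ j v v', q v j → q v' j → v = v') ∧ Nonempty (G ≃g glue K p H q) ∧
    ∀ (l' : ℕ) (H' : SimpleGraph (Fin l')) (q' : Fin l' → Fin 4 → Prop), H'.Connected →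
      (∀ j v v', q' v j → q' v' j → v = v') → (∀ j, (∃ v, q v j) ↔ ∃ v, q' v j) →
        ∃ π' : X ⊕ Fin l' → Fin r × Fin r, XMod r (glue K p H' q') π' ∧
          {v | π' v = p₀}.ncard = l' ∧ ∀ a, a ≠ p₀ → {v | π' v = a}.ncard = {v | π v = a}.ncard

/-- the replacement of one branch set by a small one -/
def T_RPO : Prop := ∀ C : GClass, Definable C → ∃ L, 0 < L ∧ ∀ (r n : ℕ)
  (G : SimpleGraph (Fin n)) (π : Fin n → Fin r × Fin r) (p₀ : Fin r × Fin r), C n G →
    XMod r G π → ∃ (n' : ℕ) (G' : SimpleGraph (Fin n')) (π' : Fin n' → Fin r × Fin r), C n' G' ∧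
      XMod r G' π' ∧ {v | π' v = p₀}.ncard ≤ L ∧
        ∀ a, a ≠ p₀ → {v | π' v = a}.ncard = {v | π v = a}.ncard

end Pool.Agent.H8.MC
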