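import Pool.Agent.H8.MC.Targets

/-!
# Spectra over classes of graphs closed under subgraphs, with first-order logic: targets
-/

set_option autoImplicit false

namespace Pool.Agent.H8.MC

open Pool.Agent.H69.Sp Pool.Agent.H69.Mt Pool.Agent.H8.VR Pool.Agent.H69.VR Pool.Agent.H8.JS
open Pool.Agent.H8.PL (GridF Z_GR Z_SQ)

/-! ### First-order logic -/

/-- The formula is a formula of first-order logic (no set variables, no counting). -/
def FirstOrder : MS → Prop
  | .un _ _ => True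
  | .bi _ _ _ => True
  | .eq _ _ => True
  | .mem _ _ => False
  | .mod _ _ _ => False
  | .neg φ => FirstOrder φ
  | .and φ ψ => FirstOrder φ ∧ FirstOrder ψ
  | .ex _ φ => FirstOrder φ
  | .exS _ _ => False

/-- the property `p` of elements is defined by a first-order formula with the only binary symbol
`R 0` -/
def FOD (p : (A : Type) → (ℕ → A → Prop) → (A → A → Prop) → (ℕ → A) → Prop) : Prop :=
  ∃ φ : MS, (BinZero φ ∧ FirstOrder φ) ∧ ∀ (A : Type) (P : ℕ → A → Prop) (R : ℕ → A → A → Prop)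
    (e : ℕ → A) (V : ℕ → Set A), φ.Sat P R e V ↔ p A P (R 0) e

/-- closure of the definable properties under the operations of logic -/
def T_MSF : Prop :=
  (∀ i x, FOD fun _ P _ e => P i (e x)) ∧ (∀ x y, FOD fun _ _ E e => E (e x) (e y)) ∧
  (∀ x y, FOD fun _ _ _ e => e x = e y) ∧ (∀ q : Prop, FOD fun _ _ _ _ => q) ∧
  (∀ p, FOD p → FOD fun A P E e => ¬ p A P E e) ∧
  (∀ p q, FOD p → FOD q → FOD fun A P E e => p A P E e ∧ q A P E e) ∧
  (∀ p q, FOD p → FOD q → FOD fun A P E e => p A P E e ∨ q A P E e) ∧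
  (∀ p q, FOD p → FOD q → FOD fun A P E e => p A P E e → q A P E e) ∧
  (∀ x p, FOD p → FOD fun A P E e => ∃ a, p A P E (Function.update e x a)) ∧
  (∀ x p, FOD p → FOD fun A P E e => ∀ a, p A P E (Function.update e x a)) ∧
  (∀ (ι : Type) [Finite ι] (p : ι → (A : Type) → (ℕ → A → Prop) → (A → A → Prop) → (ℕ → A) →
    Prop), (∀ i, FOD (p i)) → FOD fun A P E e => ∀ i, p i A P E e) ∧
  ∀ (ι : Type) [Finite ι] (p : ι → (A : Type) → (ℕ → A → Prop) → (A → A → Prop) → (ℕ → A) →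
    Prop), (∀ i, FOD (p i)) → FOD fun A P E e => ∃ i, p i A P E e

/-! ### The rules -/

/-- `v` can be reached from `u` by at most `k` edges between vertices of the same colour -/
def CmB {V : Type} (G : SimpleGraph V) (co : V → Option (ZMod 3 × ZMod 3)) : ℕ → V → V → Prop
  | 0, u, v => u = v
  | k + 1, u, v => u = v ∨ ∃ w, (G.Adj u w ∧ co u = co w) ∧ CmB G co k w v

/-- The rules for a labelled and tiled model of a grid, in first-order logic: there is exactly one
corner, but nothing is said about connectedness. -/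
structure FRule {V Q : Type} (L : ℕ) (U : Bool → Bool → Bool → Bool → Q → Prop)
    (Hh Vv : Q → Q → Prop) (G : SimpleGraph V) (co : V → Option (ZMod 3 × ZMod 3)) (rp : V → Prop)
    (lb : V → Lc) (ti : V → Q) : Prop where
  bd : ∀ u v, CmB G co (L + 1) u v → CmB G co L u v
  eE : ∀ x y, Ec G co rp x y → (lb x).r = false ∧ (lb y).l = false ∧ (lb x).b = (lb y).b ∧
    (lb x).t = (lb y).t
  eN : ∀ x y, Nc G co rp x y → (lb x).t = false ∧ (lb y).b = false ∧ (lb x).l = (lb y).l ∧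
    (lb x).r = (lb y).r
  fE : ∀ x y y', Ec G co rp x y → Ec G co rp x y' → y = y'
  iE : ∀ x x' y, Ec G co rp x y → Ec G co rp x' y → x = x'
  fN : ∀ x y y', Nc G co rp x y → Nc G co rp x y' → y = y'
  iN : ∀ x x' y, Nc G co rp x y → Nc G co rp x' y → x = x'
  xE : ∀ x, rp x → (lb x).r = false → ∃ y, Ec G co rp x y
  xN : ∀ x, rp x → (lb x).t = false → ∃ y, Nc G co rp x y
  zE : ∀ y, rp y → (lb y).l = false → ∃ x, Ec G co rp x y
  zN : ∀ y, rp y → (lb y).b = false → ∃ x, Nc G co rp x y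
  cor : ∃ x, rp x ∧ (lb x).l = true ∧ (lb x).b = true
  uc : ∀ x y, rp x → rp y → (lb x).l = true → (lb x).b = true → (lb y).l = true →
    (lb y).b = true → x = y
  sq : ∀ x y z, Ec G co rp x y → Nc G co rp x z → ∃ w, Ec G co rp z w ∧ Nc G co rp y w
  un : ∀ x, rp x → U (lb x).l (lb x).r (lb x).b (lb x).t (ti x)
  hh : ∀ x y, Ec G co rp x y → Hh (ti x) (ti y)
  vv : ∀ x y, Nc G co rp x y → Vv (ti x) (ti y)

/-- the rules are definable in first-order logic; `P 0` gives the representatives -/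
def T_GRF : Prop := ∀ (L : ℕ) (Q : Type) [Finite Q] (U : Bool → Bool → Bool → Bool → Q → Prop)
  (Hh Vv : Q → Q → Prop), ∃ Ψ : MS, (BinZero Ψ ∧ FirstOrder Ψ) ∧ ∀ n (G : SimpleGraph (Fin n))
    (R : ℕ → Fin n → Fin n → Prop) (rp : Fin n → Prop), 0 < n → (∀ a b, R 0 a b ↔ G.Adj a b) →
    ((∃ P : ℕ → Fin n → Prop, (∀ a, P 0 a ↔ rp a) ∧ ∀ e V, Ψ.Sat P R e V) ↔
      ∃ co lb ti, FRule L U Hh Vv G co rp lb ti)

/-- bounded components -/
def T_BDD : Prop := ∀ (V : Type) [Finite V] (G : SimpleGraph V)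
  (co : V → Option (ZMod 3 × ZMod 3)) (L : ℕ), (∀ u, {v | Cm G co u v}.ncard ≤ L) →
    ∀ u v, CmB G co (L + 1) u v → CmB G co L u v

/-- consequences of connectedness -/
def T_CRZ : Prop := ∀ (Q : Type) (U : Bool → Bool → Bool → Bool → Q → Prop) (Hh Vv : Q → Q → Prop)
  (V : Type) [Finite V] (G : SimpleGraph V) (co : V → Option (ZMod 3 × ZMod 3)) (rp : V → Prop)
  (lb : V → Lc) (ti : V → Q), CRule U Hh Vv G co rp lb ti →
    (∀ y, rp y → (lb y).l = false → ∃ x, Ec G co rp x y) ∧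
    (∀ y, rp y → (lb y).b = false → ∃ x, Nc G co rp x y) ∧
    ∀ x y, rp x → rp y → (lb x).l = true → (lb x).b = true → (lb y).l = true →
      (lb y).b = true → x = y

/-! ### Models -/

/-- models of grids in graphs of a given size, with branch sets of bounded size -/
def T_EXB : Prop := ∀ C : GClass, SubClosed C → ∀ L, 0 < L →
  (∀ r, ∃ (n : ℕ) (G : SimpleGraph (Fin n)) (π : Fin n → Option (Fin r × Fin r)),
    C n G ∧ GMod r G π ∧ (∀ v, π v ≠ none) ∧ ∀ p, {v | π v = some p}.ncard ≤ L) →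
  ∀ m, 0 < m → ∃ (G : SimpleGraph (Fin (L * m ^ 2)))
    (π : Fin (L * m ^ 2) → Option (Fin m × Fin m)), C (L * m ^ 2) G ∧ GMod m G π ∧
      ∀ p, {v | π v = some p}.ncard ≤ L

/-- from a tiling of a square to the rules; the components are branch sets or single vertices -/
def T_WTJ : Prop := ∀ (Q : Type) (U : Bool → Bool → Bool → Bool → Q → Prop) (Hh Vv : Q → Q → Prop)
  (K : ℕ) (V : Type) (G : SimpleGraph V) (π : V → Option (Fin K × Fin K)), 0 < K → GMod K G π →
    (∃ t, GridF U Hh Vv K K t) →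
      ∃ co rp lb ti, CRule U Hh Vv G co rp lb ti ∧ Nat.card {x // rp x} = K ^ 2 ∧
        ∀ u v, Cm G co u v → u = v ∨ ∃ p, π u = some p ∧ π v = some p

/-- Every graph isomorphic to a square grid belongs to the class `C`. -/
def HasGrids (C : GClass) : Prop :=
  ∀ (m n : ℕ) (G : SimpleGraph (Fin n)), Nonempty (G ≃g grid m) → C n G

/-- grids are models of grids -/
def T_GRX : Prop := ∀ C : GClass, HasGrids C → ∀ m, 0 < m →
  ∃ (G : SimpleGraph (Fin (1 * m ^ 2))) (π : Fin (1 * m ^ 2) → Option (Fin m × Fin m)),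
    C (1 * m ^ 2) G ∧ GMod m G π ∧ ∀ p, {v | π v = some p}.ncard ≤ 1

/-! ### Additional labels -/

/-- Additional labels of the tiles: a digit and a carry of a binary counter in the rows, the same for
the columns, the factor (`true`: 2, `false`: 2/3) of the row, the digit, the digit of the next row and
the carry. -/
structure Kl : Type where
  hb : Bool
  hc : Bool
  vb : Bool
  vc : Bool
  q : Bool
  a : Fin 3
  d : Fin 3
  s : Fin 8
deriving DecidableEq

/-- three times the factor -/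
def fac (q : Bool) : ℤ := if q then 6 else 2

/-- the condition for one tile: first column, last column, first row, last row -/
def UA (z l b u : Bool) (k : Kl) : Prop :=
  (z = true → k.hc = true) ∧ (l = true → ¬ (k.hb = true ∧ k.hc = true)) ∧
    (b = true → k.vc = true) ∧ (u = true → ¬ (k.vb = true ∧ k.vc = true)) ∧
    (k.q = false → k.a ≠ 0) ∧ (k.q = true → k.d ≠ 0)

/-- the condition for horizontal neighbours -/
def HA (k k' : Kl) : Prop :=
  k'.hc = (k.hb && k.hc) ∧ k'.vb = xor k.vb k.vc ∧ k'.q = k.q ∧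
    fac k.q * (k.a.val : ℤ) + (k.s.val : ℤ) = 3 * (k.d.val : ℤ) + (k'.s.val : ℤ)

/-- the condition for vertical neighbours -/
def VA (k k' : Kl) : Prop :=
  k'.vc = (k.vb && k.vc) ∧ k'.hb = xor k.hb k.hc ∧ k'.a = k.d

/-- the additional labels exist on all squares -/
def T_AUG : Prop := ∀ K : ℕ, 0 < K → ∃ k : ℕ → ℕ → Kl, GridF UA HA VA K K k

/-- there is no labelled torus -/
def T_TOR : Prop := ∀ (V : Type) [Finite V] (K : Set V) (E N : V → V → Prop) (k : V → Kl),
  (∀ x ∈ K, ∃ y ∈ K, E x y) → (∀ x ∈ K, ∃ y ∈ K, N x y) →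
  (∀ x y y', E x y → E x y' → y = y') → (∀ x x' y, E x y → E x' y → x = x') →
  (∀ x y y', N x y → N x y' → y = y') → (∀ x x' y, N x y → N x' y → x = x') →
  (∀ x y z, E x y → N x z → ∃ w, E z w ∧ N y w) →
  (∀ x y, E x y → HA (k x) (k y)) → (∀ x y, N x y → VA (k x) (k y)) →
  (∀ x ∈ K, ((k x).q = false → (k x).a ≠ 0) ∧ ((k x).q = true → (k x).d ≠ 0)) → K = ∅

/-- there is no labelled cylinder: a counter cannot run in a cycle -/
def T_ROC : Prop := ∀ (V : Type) [Finite V] (K : Set V) (E N : V → V → Prop) (Lf Rf : V → Prop)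
  (hb hc : V → Bool),
  (∀ x y, E x y → x ∈ K → y ∈ K ∧ ¬ Rf x ∧ ¬ Lf y) → (∀ x y y', E x y → E x y' → y = y') →
  (∀ x x' y, E x y → E x' y → x = x') → (∀ x ∈ K, ¬ Rf x → ∃ y, E x y) →
  (∀ x ∈ K, Lf x → ∃ y ∈ K, N x y ∧ Lf y) → (∀ x y, N x y → x ∈ K → y ∈ K ∧ (Rf x ↔ Rf y)) →
  (∀ x y y', N x y → N x y' → y = y') →
  (∀ x y z, E x y → N x z → ∃ w, E z w ∧ N y w) →
  (∀ x y, E x y → hc y = (hb x && hc x)) → (∀ x y, N x y → hb y = xor (hb x) (hc x)) →
  (∀ x ∈ K, Lf x → hc x = true) → (∀ x ∈ K, Rf x → ¬ (hb x = true ∧ hc x = true)) →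
    ∀ x ∈ K, ¬ Lf x

section

variable {Q : Type}

/-- tiles with additional labels -/
def U2 (U : Bool → Bool → Bool → Bool → Q → Prop) (z l b u : Bool) (q : Q × Kl) : Prop :=
  U z l b u q.1 ∧ UA z l b u q.2

/-- horizontal neighbours with additional labels -/
def H2 (Hh : Q → Q → Prop) (q q' : Q × Kl) : Prop := Hh q.1 q'.1 ∧ HA q.2 q'.2

/-- vertical neighbours with additional labels -/
def V2 (Vv : Q → Q → Prop) (q q' : Q × Kl) : Prop := Vv q.1 q'.1 ∧ VA q.2 q'.2

end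

/-- with the additional labels, the rules imply connectedness -/
def T_CNN : Prop := ∀ (L : ℕ) (Q : Type) (U : Bool → Bool → Bool → Bool → Q → Prop)
  (Hh Vv : Q → Q → Prop) (V : Type) [Finite V] (G : SimpleGraph V)
  (co : V → Option (ZMod 3 × ZMod 3)) (rp : V → Prop) (lb : V → Lc) (ti : V → Q × Kl),
  FRule L (U2 U) (H2 Hh) (V2 Vv) G co rp lb ti → CRule (U2 U) (H2 Hh) (V2 Vv) G co rp lb ti

/-- every spectrum is given by a first-order spectrum over each class with models of grids -/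
def T_XSF : Prop := ∀ S, IsSpectrum S → ∃ r : ℕ, 0 < r ∧ ∀ L, 0 < L → ∃ (Ψ : MS) (φ : C2),
  (BinZero Ψ ∧ FirstOrder Ψ) ∧ ∀ C : GClass, (∀ m, 0 < m →
    ∃ (G : SimpleGraph (Fin (L * m ^ 2))) (π : Fin (L * m ^ 2) → Option (Fin m × Fin m)),
      C (L * m ^ 2) G ∧ GMod m G π ∧ ∀ p, {v | π v = some p}.ncard ≤ L) →
    ∀ n, (n ∈ specC C Ψ φ ↔ ∃ m ∈ S, n = L * m ^ (2 * r))

end Pool.Agent.H8.MC
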