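import Pool.Agent.H8.MC.Targets

/-!
# Spectra over classes of graphs which are closed under subgraphs: the theorem
-/

set_option autoImplicit false

namespace Pool.Agent.H8.MC

open Pool.Agent.H69.Sp Pool.Agent.H69.Mt Pool.Agent.H8.VR Pool.Agent.H69.VR Pool.Agent.H8.PU
open Pool.Agent.H8.DI Pool.Agent.H8.UN

theorem pf_pos (hGRID : T_GRID) (hCLO : T_CLO) : T_POS := by
  intro C hD hG Ψ φ hΨ
  unfold GridMinors at hG
  push Not at hG
  obtain ⟨r, hr⟩ := hG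
  obtain ⟨k, hk⟩ := hGRID r
  refine hCLO C k hD (fun n G hn hC => ?_) Ψ φ hΨ
  haveI : Nonempty (Fin n) := ⟨⟨0, hn⟩⟩
  exact hk (Fin n) G (hr n G hC)

/-- the negative half, with one formula `Ψ` for all classes and one sequence of formulas `φ L` -/
theorem pf_neg (hBND : T_BND) (hEXA : T_EXA) (hXS : T_XS) (hIMG : T_IMG) :
    ∃ (Ψ : MS) (φ : ℕ → C2), BinZero Ψ ∧ ∀ C : GClass, Definable C → SubClosed C →
      GridMinors C → ∃ L, Pool.Agent.H51.UN.Complete (specC C Ψ (φ L)) := by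
  obtain ⟨Ψ, r, hΨ, hr, h2⟩ := hXS X0 pf_xs
  have h3 : ∃ φ : ℕ → C2, ∀ L, 0 < L → ∀ C : GClass,
      (∀ m, 0 < m → ∃ (G : SimpleGraph (Fin (L * m ^ 2)))
        (π : Fin (L * m ^ 2) → Option (Fin m × Fin m)), C (L * m ^ 2) G ∧ GMod m G π) →
      ∀ n, (n ∈ specC C Ψ (φ L) ↔ ∃ m ∈ X0, n = L * m ^ (2 * r)) := by
    classical
    refine ⟨fun L => if h : 0 < L then (h2 L h).choose else C2.eq true true, fun L hL => ?_⟩
    simp only [dif_pos hL]
    exact (h2 L hL).choose_spec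
  obtain ⟨φ, h3⟩ := h3
  refine ⟨Ψ, φ, hΨ, fun C hD hS hG => ?_⟩
  obtain ⟨L, hL, h1⟩ := hBND C hD hS hG
  have h4 := h3 L hL C (hEXA C hS L hL h1)
  refine ⟨L, ?_⟩
  have e : specC C Ψ (φ L) = {n | ∃ m ∈ X0, n = L * m ^ (2 * r)} := Set.ext h4
  refine Pool.Agent.H51.UN.complete_of n_ur n_re _ (fun n => L * n ^ (2 * r))
    ((L : Polynomial ℤ) * Polynomial.X ^ (2 * r)) (e ▸ hIMG X0 pf_xs L (2 * r) hL (by omega))
    (fun n _ => by simp) (fun n _ => ?_) (fun X hX => ge4 Pool.Agent.H19.UN.pf_f4 _ X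
      (Pool.Agent.H84.TW.pf_pb X hX L (2 * r) hL (by omega))) (fun n _ => ?_)
  · calc n ≤ n ^ (2 * r) := Nat.le_self_pow (by omega) n
      _ ≤ L * n ^ (2 * r) := Nat.le_mul_of_pos_left _ hL
  · rw [h4]
    constructor
    · intro hn
      exact ⟨n, hn, rfl⟩
    · rintro ⟨m, hm, hk⟩
      have h1 : n ^ (2 * r) = m ^ (2 * r) := Nat.eq_of_mul_eq_mul_left hL hk
      rw [Nat.pow_left_injective (show (2 * r) ≠ 0 by omega) h1]
      exact hm

end Pool.Agent.H8.MC
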